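import Pool.Agent.Lib.MP_79262d_an.Finite

/-!
# Cuntz subequivalence to functions on `X` in crossed products of `C(X, D)`

Q1 has a positive answer whenever `X` is infinite (no freeness is needed, `X` is any infinite
compact Hausdorff space, `G` any discrete group acting minimally), and it fails for the one-point
space `X`, with `G` trivial and `D` the `2 × 2` matrices.
-/

open scoped Matrix.Norms.L2Operator
open Pool.Agent.Lib.MP_79262d_an

namespace Pool.Agent.Results.MP_79262d_an.Answer

/-- First part: `X` infinite. For every simple unital `D`, every minimal action of `G` on `X` and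
every pseudoperiodically generated action `α` on `C(X, D)` lying over it, for every nonzero
positive `a` in `C(X, D)` there is a nonzero nonnegative `f` in `C(X)` with `f ≾ a` in the reduced
crossed product. Second part: for the one-point space, `G` trivial, `D` the `2 × 2` matrices and
some `α` this fails. -/
theorem result :
    (∀ (G X D H : Type*) [Group G] [TopologicalSpace X] [CompactSpace X] [T2Space X]
      [MulAction G X] [ContinuousConstSMul G X] [MulAction.IsMinimal G X] [Infinite X]
      [CStarAlgebra D] [NormedAddCommGroup H] [InnerProductSpace ℂ H] [CompleteSpace H]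
      (α : CStarAction G C(X, D)) (β : G → X → StarAut D) (π : Rep C(X, D) H),
      IsSimpleCStar D → LiesOver α β → Pseudoperiodic {σ | ∃ g x, σ = β g x} →
      HasScalarMinorants α π) ∧
    (MulAction.IsMinimal Unit Unit ∧ EssentiallyFree Unit Unit ∧
      IsSimpleCStar (Matrix (Fin 2) (Fin 2) ℂ) ∧
      ∃ (α : CStarAction Unit C(Unit, Matrix (Fin 2) (Fin 2) ℂ))
        (β : Unit → Unit → StarAut (Matrix (Fin 2) (Fin 2) ℂ)),
        LiesOver α β ∧ Pseudoperiodic {σ | ∃ g x, σ = β g x} ∧
        ∀ (H : Type*) [NormedAddCommGroup H] [InnerProductSpace ℂ H] [CompleteSpace H]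
          (π : Rep C(Unit, Matrix (Fin 2) (Fin 2) ℂ) H), Function.Injective π →
          ¬ HasScalarMinorants α π) := by
  refine ⟨?_, finite_counterexample⟩
  intro G X D H _ _ _ _ _ _ _ _ _ _ _ _ α β π hD hαβ hpp a ha ha0
  exact main_positive hD α β hαβ hpp π ha ha0

end Pool.Agent.Results.MP_79262d_an.Answer
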